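import Pool.Agent.X31.U5

/-!
# Chowla's conjecture in progressions and patterns of signs, for the products of linear factors whose constant terms are
# within `N ^ δ` of the values of generalised polynomials,
# at most scales

`f i(t) = ∑ u_x t ^ x` is an arbitrary finite real combination of real powers of `t` with a positive largest exponent
`c i` (for instance `t ^ {3/2}`, `√2 t ^ 3 + t`, `t ^ {1/10}`), and `M i` is an arbitrary subset of `{1, ..., Y i}` with at
least `Y i / N ^ δ` elements. The values considered are `b₀ + θ f(n)`, with arbitrary real `b₀` and `θ` for which these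
values are of size `N` (for instance `θ = N / Y ^ c`).
At most scales `N`: for all but a proportion `N ^ (-δ)` of the tuples `q` with `q i ∈ M i`, ALL tuples `s` of integers
within `N ^ δ` of the values at the `q i` satisfy the bound of the problem with `ε N`, for all progressions with
difference at most `A` and all polynomials `∏ i ∈ I, (a i T + s i)`, `1 ≤ a i ≤ A`, also when the sum is restricted
to an arbitrary set; and all patterns of signs of the `λ (a i t + s i)` have the expected frequency.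

The minimal real additive energy of generalised polynomials is from `Pool.Agent.X31` (`gp_EB`, in this run); the theorem on
families of small energy at most scales (`Pool.Agent.TH823.PS.most_good`) is in the starting files.
From Mathlib: `ArithmeticFunction.cardFactors m`: the number of prime factors of `m` with multiplicity;
`Finset.Icc 1 x`: the integers `t` with `1 ≤ t ≤ x`; `t ≡ c [MOD m]`: congruence modulo `m`; `Polynomial.eval t f`: the
value `f(t)`; `Polynomial.C k`: the constant polynomial `k`.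
-/

set_option autoImplicit false

namespace Pool.Agent.Results.MP_648c71_nt.GeneralisedPolynomialPatterns

open Finset

/-- the generalised polynomial with the exponents `x ∈ F` and the coefficients `u x` -/
noncomputable def f (F : Finset ℝ) (u : ℝ → ℝ) (t : ℝ) : ℝ := ∑ x ∈ F, u x * t ^ x

/-- `M` is a subset of `{1, ..., Y}` with at least `Y / N ^ δ` elements, `Y ≤ N ^ D`; the number `θ` is at most
`N ^ δ` and at least `N / (Y ^ c N ^ δ)` in absolute value, and `|b₀ + θ f(n)| ≤ N` for all `n ∈ M`. -/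
def Fam (D : ℕ) (F : Finset ℝ) (u : ℝ → ℝ) (c : ℝ) (N Y : ℕ) (δ θ b₀ : ℝ) (M : Finset ℕ) : Prop :=
  (Y : ℝ) ≤ (N : ℝ) ^ D ∧ |θ| ≤ (N : ℝ) ^ δ ∧ (N : ℝ) / (N : ℝ) ^ δ ≤ |θ| * (Y : ℝ) ^ c ∧
  M ⊆ Icc 1 Y ∧ (Y : ℝ) / (N : ℝ) ^ δ ≤ M.card ∧ ∀ n ∈ M, |b₀ + θ * f F u n| ≤ N

/-- The Liouville function on the integers: `λ(m) = (-1) ^ Ω(|m|)` for `m ≠ 0`, and `λ(0) = 0`. -/
def lam (m : ℤ) : ℤ := if m = 0 then 0 else (-1) ^ ArithmeticFunction.cardFactors m.natAbs

open Classical in
/-- The property `P` holds at most scales: the set of the positive integers `N` with the property `P` has upper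
logarithmic density at least `1 - ε`. Precisely, for arbitrarily large `R` the sum of `1 / N` over the `N ≤ R`
without the property is at most `ε log R`. -/
def MostScales (ε : ℝ) (P : ℕ → Prop) : Prop :=
  ∀ R₀ : ℕ, ∃ R : ℕ, R₀ ≤ R ∧ ∑ N ∈ (Icc 1 R).filter (fun N => ¬ P N), (1 : ℝ) / N ≤ ε * Real.log R

/-- the polynomial `∏ i ∈ I, (a i T + s i)` -/
noncomputable def pol {r : ℕ} (a : Fin r → ℕ) (s : Fin r → ℤ) (I : Finset (Fin r)) : Polynomial ℤ :=
  ∏ i ∈ I, (Polynomial.C (a i : ℤ) * Polynomial.X + Polynomial.C (s i))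

open Classical in
/-- the elements `t ≤ x` of `B` with `t ≡ c` modulo `m` -/
noncomputable def prog (B : Set ℕ) (c m x : ℕ) : Finset ℕ := (Icc 1 x).filter (fun t => t ∈ B ∧ t ≡ c [MOD m])

open Classical in
/-- the number of the `t ≤ x` in `B`, `t ≡ c` modulo `m`, with `λ (a i t + s i) = e i` for all `i` -/
noncomputable def count {r : ℕ} (a : Fin r → ℕ) (s e : Fin r → ℤ) (B : Set ℕ) (c m x : ℕ) : ℝ :=
  (((prog B c m x).filter (fun t : ℕ => ∀ i, lam (a i * t + s i) = e i)).card : ℝ)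

/-- The tuple `s` is good at the scale `N`, for the set `B`: for all the coefficients `1 ≤ a i ≤ A`, all progressions
`c` modulo `m`, `1 ≤ m ≤ A`, and all `x ≤ N`: the sum of `λ (f t)` over the `t ≤ x` in `B` with `t ≡ c` modulo `m`
is at most `ε N` for all the polynomials `f = ∏ i ∈ I, (a i T + s i)`, `I ≠ ∅`; and for all signs `e i = ±1` the number
of these `t` with `λ (a i t + s i) = e i` for all `i` is `2 ^ (-r)` times the number of all these `t`, up to `ε N`. -/
def Good {r : ℕ} (A : ℕ) (ε : ℝ) (N : ℕ) (B : Set ℕ) (s : Fin r → ℤ) : Prop :=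
  ∀ a : Fin r → ℕ, (∀ i, 1 ≤ a i ∧ a i ≤ A) → ∀ m : ℕ, 1 ≤ m → m ≤ A → ∀ c x : ℕ, x ≤ N →
    (∀ I : Finset (Fin r), I.Nonempty →
      |∑ t ∈ prog B c m x, (lam ((pol a s I).eval (t : ℤ)) : ℝ)| ≤ ε * N) ∧
    ∀ e : Fin r → ℤ, (∀ i, e i = 1 ∨ e i = -1) →
      |count a s e B c m x - ((prog B c m x).card : ℝ) / 2 ^ r| ≤ ε * N

/-- At the scale `N`: for all `Y i`, all real `θ i`, `b₀ i` and all sets `M i` with
`Fam D (F i) (u i) (c i) N (Y i) δ (θ i) (b₀ i) (M i)`, and ALL sets `B` of positive integers: for all the tuples `q`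
with `q i ∈ M i` with at most `∏ #(M i) / N ^ δ` exceptions, ALL the tuples `s` of integers with
`|s i - (b₀ i + θ i * f (F i) (u i) (q i))| ≤ N ^ δ` are good. -/
def Tuples (A : ℕ) {r : ℕ} (D : ℕ) (F : Fin r → Finset ℝ) (u : Fin r → ℝ → ℝ) (c : Fin r → ℝ) (ε δ : ℝ) (N : ℕ) : Prop :=
  ∀ (Y : Fin r → ℕ) (θ b₀ : Fin r → ℝ) (M : Fin r → Finset ℕ),
    (∀ i, Fam D (F i) (u i) (c i) N (Y i) δ (θ i) (b₀ i) (M i)) →
    ∀ B : Set ℕ,
      ∃ E : Finset (Fin r → ℕ), (E.card : ℝ) ≤ (∏ i, ((M i).card : ℝ)) * (N : ℝ) ^ (-δ) ∧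
        ∀ q : Fin r → ℕ, (∀ i, q i ∈ M i) → q ∉ E →
          ∀ s : Fin r → ℤ, (∀ i, |(s i : ℝ) - (b₀ i + θ i * f (F i) (u i) (q i))| ≤ (N : ℝ) ^ δ) → Good A ε N B s

lemma dat_of {D : ℕ} {F : Finset ℝ} {u : ℝ → ℝ} {c : ℝ} {N Y : ℕ} {δ θ b₀ : ℝ} {M : Finset ℕ}
    (h : Fam D F u c N Y δ θ b₀ M) :
    Pool.Agent.X31.DatGT D c ((N : ℝ) ^ δ) N Y θ b₀ (fun n => Pool.Agent.X31.gp F u n) M :=
  ⟨h.1, h.2.1, h.2.2.1, h.2.2.2.1, h.2.2.2.2.1, h.2.2.2.2.2⟩

lemma most_of {ε : ℝ} {P P' : ℕ → Prop} (h : Pool.Agent.TH823.PS.Most ε P) (hPP : ∀ N, P N → P' N) :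
    MostScales ε P' := by
  classical
  have h' : MostScales ε P := h
  intro R₀
  obtain ⟨R, hR, h1⟩ := h' R₀
  refine ⟨R, hR, le_trans ?_ h1⟩
  apply sum_le_sum_of_subset_of_nonneg
  · intro N hN
    simp only [mem_filter] at hN ⊢
    exact ⟨hN.1, fun h2 => hN.2 (hPP N h2)⟩
  · intro _ _ _; positivity

lemma lam_mul (m n : ℤ) : lam (m * n) = lam m * lam n := by
  unfold lam
  by_cases hm : m = 0
  · simp [hm]
  by_cases hn : n = 0
  · simp [hn]
  rw [if_neg (mul_ne_zero hm hn), if_neg hm, if_neg hn, Int.natAbs_mul,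
    ArithmeticFunction.cardFactors_mul (Int.natAbs_ne_zero.2 hm) (Int.natAbs_ne_zero.2 hn), pow_add]

lemma lam_prod {r : ℕ} (g : Fin r → ℤ) (I : Finset (Fin r)) : lam (∏ i ∈ I, g i) = ∏ i ∈ I, lam (g i) := by
  classical
  induction I using Finset.induction_on with
  | empty => simp [lam]
  | insert i I hi ih => rw [prod_insert hi, prod_insert hi, lam_mul, ih]

lemma lam_abs (m : ℤ) : |lam m| ≤ 1 := by
  unfold lam
  split_ifs
  · simp
  · rw [abs_pow]; simp

lemma lam_eq (m : ℤ) : (lam m : ℂ) = Pool.Agent.TH823.PS.evI Pool.Agent.H373R2.T7.liR m := by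
  unfold lam Pool.Agent.TH823.PS.evI Pool.Agent.H373R2.T7.exI Pool.Agent.H373R2.T7.liR
  rcases lt_trichotomy m 0 with h | h | h
  · rw [if_neg h.ne, if_neg (by omega), if_pos (by omega), zero_add]
    have : m.natAbs = (-m).toNat := by omega
    rw [this]
    push_cast
    rfl
  · subst h
    simp
  · rw [if_neg h.ne', if_pos (by omega), if_neg (by omega), add_zero]
    have : m.natAbs = m.toNat := by omega
    rw [this]
    push_cast
    rfl

lemma lam_or (m : ℤ) : lam m = 0 ∨ lam m = 1 ∨ lam m = -1 := by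
  unfold lam
  split_ifs
  · exact Or.inl rfl
  · exact Or.inr (neg_one_pow_eq_or ℤ _)

lemma lam_zero {m : ℤ} (h : lam m = 0) : m = 0 := by
  by_contra hcon
  unfold lam at h
  rw [if_neg hcon] at h
  exact pow_ne_zero _ (by norm_num) h

/-- Let `F i` be finite sets of real numbers with the maxima `c i > 0`, `u i (c i) ≠ 0` (`i < r`), `D` an integer. Let `A` be an integer and `ε > 0`.
There is a `δ > 0` such that at most scales `N`, that is on a set of `N` of upper logarithmic density at least `1 - ε`,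
`Tuples A D F u c ε δ N` holds: for all `Y i`, all real `θ i`, `b₀ i` and all sets `M i` with
`Fam D (F i) (u i) (c i) N (Y i) δ (θ i) (b₀ i) (M i)`, and ALL sets `B`,
for all the tuples `q` with `q i ∈ M i` with at most `∏ #(M i) / N ^ δ` exceptions, ALL the tuples `s` of integers with
`|s i - (b₀ i + θ i * f (F i) (u i) (q i))| ≤ N ^ δ` are good for all coefficients `a i ≤ A`, progressions with difference `≤ A` and `x ≤ N`: the
sums of `λ (∏ i ∈ I, (a i t + s i))` over the `t ≤ x` in `B` and in the progression are at most `ε N` for all `I ≠ ∅`,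
and all patterns of signs of the `λ (a i t + s i)` occur for `2 ^ (-r)` of these `t`, up to `ε N`. -/
theorem result (A r : ℕ) (D : ℕ) (F : Fin r → Finset ℝ) (u : Fin r → ℝ → ℝ) (c : Fin r → ℝ) 
    (hF : ∀ i, c i ∈ F i ∧ (∀ x ∈ F i, x ≤ c i) ∧ u i (c i) ≠ 0 ∧ 0 < c i) (ε : ℝ) (hε : 0 < ε) :
    ∃ δ : ℝ, 0 < δ ∧ MostScales ε (Tuples A D F u c ε δ) := by
  classical
  obtain ⟨E', HS⟩ : ∃ E' : Fin r → ℕ, ∀ i,
      Pool.Agent.X31.SchT (E' i) (Pool.Agent.X31.QGp D (F i) (u i) (c i)) := by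
    choose E' HS using fun i => Pool.Agent.X31.SchT_gp D (F i) (u i) (c i) (hF i).1 (hF i).2.1 (hF i).2.2.1
      (hF i).2.2.2
    exact ⟨E', HS⟩
  obtain ⟨e⟩ : Nonempty (Fin (Fintype.card {t : ((Fin r → Fin A) × (Fin A × Fin A)) × Finset (Fin r) // t.2.Nonempty}) ≃
      {t : ((Fin r → Fin A) × (Fin A × Fin A)) × Finset (Fin r) // t.2.Nonempty}) := ⟨(Fintype.equivFin _).symm⟩
  obtain ⟨δ, hδ, H⟩ := Pool.Agent.X31.SchT.most_pos HS (fun _ => 0) Pool.Agent.TH823.PS.nice_liR (A + 1)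
    (Fintype.card {t : ((Fin r → Fin A) × (Fin A × Fin A)) × Finset (Fin r) // t.2.Nonempty}) (by omega) (ε := min ε (ε / 2)) (by positivity)
  have hmin : min ε (ε / 2) = ε / 2 := min_eq_right (by linarith)
  rw [hmin] at H
  obtain ⟨N₁, hN₁⟩ : ∃ N₁ : ℕ, (r : ℝ) ≤ ε / 2 * N₁ := by
    obtain ⟨k, hk⟩ := exists_nat_ge ((r : ℝ) / (ε / 2))
    refine ⟨k, ?_⟩
    rw [div_le_iff₀ (by positivity)] at hk
    linarith
  have HM : Pool.Agent.TH823.PS.Most ε _ := fun R₀ => by
    obtain ⟨R, hR, h1⟩ := H (N₁ + 1) (max R₀ 1)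
    refine ⟨R, (le_max_left _ _).trans hR, h1.trans ?_⟩
    have : 0 ≤ Real.log R := Real.log_natCast_nonneg R
    nlinarith
  refine ⟨δ, hδ, most_of HM fun N h => ?_⟩
  obtain ⟨hN1, H1⟩ := h
  have hNr : (N₁ : ℝ) ≤ N := by exact_mod_cast (by omega : N₁ ≤ N)
  intro Y θ b₀ M hfam B
  obtain ⟨i₀, hi₀⟩ : ∃ i₀ : (Fin (Fintype.card {t : ((Fin r → Fin A) × (Fin A × Fin A)) × Finset (Fin r) // t.2.Nonempty})) → Fin r,
      ∀ l, i₀ l ∈ (e l).1.2 := ⟨fun l => (e l).2.choose, fun l => (e l).2.choose_spec⟩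
  obtain ⟨α, hα⟩ : ∃ α : (Fin (Fintype.card {t : ((Fin r → Fin A) × (Fin A × Fin A)) × Finset (Fin r) // t.2.Nonempty})) → Fin r → ℕ,
      α = fun l i => ((e l).1.1.1 i : ℕ) + 1 := ⟨_, rfl⟩
  obtain ⟨E, hE1, hE2⟩ := H1 M (fun i n => (b₀ i + θ i * f (F i) (u i) n)) (fun i => ⟨Y i, θ i, b₀ i, dat_of (hfam i), fun _ => rfl⟩)
    (fun l => α l (i₀ l)) (fun l => by rw [hα]; simp) (fun l => by
      rw [hα]
      have := ((e l).1.1.1 (i₀ l)).2
      simp only
      omega) i₀
    (fun l s n => (if n ∈ B ∧ n ≡ ((e l).1.1.2.1 : ℕ) [MOD ((e l).1.1.2.2 : ℕ) + 1] then 1 else 0) *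
      (∏ i ∈ (e l).1.2.erase (i₀ l), (lam (α l i * n + s i) : ℂ))) (by
      intro l s n
      rw [norm_mul, norm_prod]
      refine mul_le_one₀ (by split_ifs <;> simp) (prod_nonneg fun _ _ => norm_nonneg _)
        (prod_le_one (fun _ _ => norm_nonneg _) fun i _ => ?_)
      rw [Complex.norm_intCast]
      exact_mod_cast lam_abs _) (by
      intro l s s' n hss
      have e1 : ∏ i ∈ (e l).1.2.erase (i₀ l), (lam (α l i * n + s i) : ℂ) =
          ∏ i ∈ (e l).1.2.erase (i₀ l), (lam (α l i * n + s' i) : ℂ) :=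
        prod_congr rfl fun i hi => by rw [hss i (mem_erase.1 hi).1]
      rw [e1])
  refine ⟨E, hE1, fun q hq hqE s hs a ha mm hm1 hmA c x hx => ?_⟩
  have hN0 : (0 : ℝ) ≤ N := Nat.cast_nonneg _
  have key : ∀ I : Finset (Fin r), I.Nonempty →
      |∑ t ∈ prog B c mm x, ∏ i ∈ I, (lam (a i * (t : ℤ) + s i) : ℝ)| ≤ ε / 2 * N := by
    intro I hI
    obtain ⟨l, hl⟩ : ∃ l, e l = ⟨((fun i => ⟨a i - 1, by have := ha i; omega⟩,
      (⟨c % mm, lt_of_lt_of_le (Nat.mod_lt _ hm1) hmA⟩, ⟨mm - 1, by omega⟩)), I), hI⟩ := e.surjective _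
    have h1 := hE2 q hq hqE s hs l x hx
    have hi := hi₀ l
    have ea : ∀ i, α l i = a i := by
      intro i
      rw [hα]
      simp only
      rw [hl]
      have := ha i
      simp only
      omega
    simp only [ea] at h1
    rw [hl] at h1 hi
    simp only at h1 hi
    have em : mm - 1 + 1 = mm := by omega
    rw [em] at h1
    rw [← Real.norm_eq_abs, ← Complex.norm_real]
    refine le_trans (le_of_eq ?_) h1
    congr 1
    unfold prog
    rw [sum_filter]
    push_cast
    apply sum_congr rfl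
    intro n _
    have hc : (n ≡ c % mm [MOD mm]) ↔ (n ≡ c [MOD mm]) := by
      unfold Nat.ModEq
      rw [Nat.mod_mod]
    by_cases hn : n ∈ B ∧ n ≡ c [MOD mm]
    · rw [if_pos hn, if_pos (⟨hn.1, hc.2 hn.2⟩ : n ∈ B ∧ n ≡ c % mm [MOD mm]), one_mul, ← mul_prod_erase I _ hi,
        ← lam_eq]
      push_cast
      ring
    · rw [if_neg hn, if_neg (fun h3 : n ∈ B ∧ n ≡ c % mm [MOD mm] => hn ⟨h3.1, hc.1 h3.2⟩), zero_mul, zero_mul,
        Complex.ofReal_zero]
  refine ⟨fun I hI => ?_, fun ee hee => ?_⟩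
  · have h1 := key I hI
    have h2 : ∀ t : ℕ, (lam ((pol a s I).eval (t : ℤ)) : ℝ) = ∏ i ∈ I, (lam (a i * (t : ℤ) + s i) : ℝ) := by
      intro t
      unfold pol
      rw [Polynomial.eval_prod, lam_prod]
      push_cast
      apply prod_congr rfl
      intro i _
      simp
    simp only [h2]
    refine h1.trans ?_
    nlinarith
  · unfold count
    have h1 := Pool.Agent.X31.pattern (prog B c mm x) (fun t i => lam (a i * t + s i)) (fun t i => lam_or _) ee hee
      (ε / 2 * N) r (by positivity) (fun I hI => key I hI) (by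
        refine le_trans (le_of_eq ?_) (Pool.Agent.X31.zeros_le (prog B c mm x) a (fun i => (ha i).1) s)
        congr 2
        apply filter_congr
        intro t _
        constructor
        · rintro ⟨i, hi⟩
          exact ⟨i, lam_zero hi⟩
        · rintro ⟨i, hi⟩
          refine ⟨i, ?_⟩
          rw [hi]
          simp [lam])
    refine le_trans (le_of_eq ?_) (h1.trans ?_)
    · congr!
    · have h3 : ε / 2 * N₁ ≤ ε / 2 * N := mul_le_mul_of_nonneg_left hNr (by positivity)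
      linarith

end Pool.Agent.Results.MP_648c71_nt.GeneralisedPolynomialPatterns
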